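import Mathlib
import Pool.Agent.H67.BF.SDef

/-!
# Every finite group is isomorphic to a group of multiple elements (helper82, for helper67)
-/

set_option autoImplicit false

namespace Pool.Agent.H82.BF

/-- the regular representation on `Fin k` -/
def rg {H : Type} [Group H] {k : ℕ} (ε : H ≃ Fin k) : H →* Equiv.Perm (Fin k) where
  toFun y := ε.symm.trans ((Equiv.mulLeft y).trans ε)
  map_one' := by ext; simp
  map_mul' a b := by ext; simp

lemma rg_apply {H : Type} [Group H] {k : ℕ} (ε : H ≃ Fin k) (y : H) (i : Fin k) :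
    rg ε y i = ε (y * ε.symm i) := rfl

lemma rg_inj {H : Type} [Group H] {k : ℕ} (ε : H ≃ Fin k) : Function.Injective (rg ε) := by
  intro a b h
  have h1 := congrArg (fun σ : Equiv.Perm (Fin k) => σ (ε 1)) h
  simpa [rg_apply] using h1

/-- `N` copies of a permutation of `Fin k` and fixed points -/
def PP {n N k l : ℕ} (E : Fin n ≃ (Fin N × Fin k) ⊕ Fin l) :
    Equiv.Perm (Fin k) →* Equiv.Perm (Fin n) where
  toFun p := (E.trans (Equiv.Perm.sumCongr (Equiv.prodCongrRight fun _ : Fin N => p) 1)).trans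
    E.symm
  map_one' := by
    ext i
    simp only [Equiv.trans_apply, Equiv.Perm.coe_one, id_eq]
    rcases h : E i with ⟨j, j'⟩ | j
    · simp only [Equiv.Perm.sumCongr_apply, Sum.map_inl]
      show ((E.symm (Sum.inl (j, j')) : Fin n) : ℕ) = i
      rw [← h, Equiv.symm_apply_apply]
    · simp only [Equiv.Perm.sumCongr_apply, Sum.map_inr]
      show ((E.symm (Sum.inr j) : Fin n) : ℕ) = i
      rw [← h, Equiv.symm_apply_apply]
  map_mul' a b := by
    ext i
    simp only [Equiv.trans_apply, Equiv.Perm.mul_apply, Equiv.apply_symm_apply]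
    rcases E i with ⟨j, j'⟩ | j
    · rfl
    · rfl

lemma PP_inl {n N k l : ℕ} (E : Fin n ≃ (Fin N × Fin k) ⊕ Fin l) (p : Equiv.Perm (Fin k))
    (i : Fin N) (j : Fin k) : PP E p (E.symm (Sum.inl (i, j))) = E.symm (Sum.inl (i, p j)) := by
  show E.symm (Equiv.Perm.sumCongr (Equiv.prodCongrRight fun _ : Fin N => p) 1
    (E (E.symm (Sum.inl (i, j))))) = _
  rw [Equiv.apply_symm_apply]
  rfl

lemma PP_inr {n N k l : ℕ} (E : Fin n ≃ (Fin N × Fin k) ⊕ Fin l) (p : Equiv.Perm (Fin k))
    (j : Fin l) : PP E p (E.symm (Sum.inr j)) = E.symm (Sum.inr j) := by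
  show E.symm (Equiv.Perm.sumCongr (Equiv.prodCongrRight fun _ : Fin N => p) 1
    (E (E.symm (Sum.inr j)))) = _
  rw [Equiv.apply_symm_apply]
  rfl

lemma PP_sign {n N k l : ℕ} (E : Fin n ≃ (Fin N × Fin k) ⊕ Fin l) (p : Equiv.Perm (Fin k)) :
    Equiv.Perm.sign (PP E p) = Equiv.Perm.sign p ^ N := by
  have h1 : PP E p = (E.trans (Equiv.Perm.sumCongr
    (Equiv.prodCongrRight fun _ : Fin N => p) 1)).trans E.symm := rfl
  rw [h1, Equiv.Perm.sign_trans_trans_symm, Equiv.Perm.sign_sumCongr, Equiv.Perm.sign_one,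
    mul_one, Equiv.Perm.sign_prodCongrRight, Finset.prod_const, Finset.card_univ,
    Fintype.card_fin]

/-- the matrices -/
def ph {H : Type} [Group H] (F : Type) [Field F] {n N k l : ℕ}
    (E : Fin n ≃ (Fin N × Fin k) ⊕ Fin l) (ρ : H →* Equiv.Perm (Fin k))
    (hρ : ∀ y, Equiv.Perm.sign (ρ y) ^ N = 1) : H →* Matrix.SpecialLinearGroup (Fin n) F where
  toFun y := ⟨((PP E (ρ y))⁻¹).permMatrix F, by
    rw [Matrix.det_permutation, Equiv.Perm.sign_inv, PP_sign, hρ]; simp⟩
  map_one' := by
    apply Subtype.ext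
    show ((PP E (ρ 1))⁻¹).permMatrix F = 1
    rw [map_one, map_one, inv_one, Matrix.permMatrix_one]
  map_mul' a b := by
    apply Subtype.ext
    show ((PP E (ρ (a * b)))⁻¹).permMatrix F =
      ((PP E (ρ a))⁻¹).permMatrix F * ((PP E (ρ b))⁻¹).permMatrix F
    rw [map_mul, map_mul, mul_inv_rev, Matrix.permMatrix_mul]

/-- the coordinates -/
def ec (F : Type) [Field F] {n N k l : ℕ} (E : Fin n ≃ (Fin N × Fin k) ⊕ Fin l) :
    (Fin n → F) ≃ₗ[F] (Fin N → Fin k → F) × (Fin l → F) where
  toFun w := (fun i j => w (E.symm (Sum.inl (i, j))), fun j => w (E.symm (Sum.inr j)))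
  map_add' w w' := rfl
  map_smul' c w := rfl
  invFun v := fun i => Sum.elim (fun c : Fin N × Fin k => v.1 c.1 c.2) v.2 (E i)
  left_inv w := by
    funext i
    obtain ⟨x, rfl⟩ := E.symm.surjective i
    rcases x with ⟨a, b⟩ | j <;> simp
  right_inv v := by
    refine Prod.ext ?_ ?_
    · funext a b
      simp
    · funext j
      simp

/-- the homomorphism from the permutations -/
def gL (F : Type) [Field F] (k : ℕ) : Equiv.Perm (Fin k) →* ((Fin k → F) ≃ₗ[F] (Fin k → F)) where
  toFun p := LinearEquiv.funCongrLeft F F (p⁻¹ : Equiv.Perm (Fin k))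
  map_one' := by
    apply LinearEquiv.ext
    intro v
    funext i
    rfl
  map_mul' a b := by
    apply LinearEquiv.ext
    intro v
    funext i
    show v ((a * b)⁻¹ i) = v (b⁻¹ (a⁻¹ i))
    rw [mul_inv_rev]
    rfl

theorem exists_multiple (H : Type) [Group H] [Finite H] (F : Type) [Field F] (N n : ℕ)
    (hN0 : 0 < N) (hN : Nat.card H ∣ N) (hn : N * Nat.card H ≤ n) :
    ∃ φ : H →* Matrix.SpecialLinearGroup (Fin n) F, Function.Injective φ ∧
      ∀ y : H, Pool.Agent.H67.BF.Multiple N (φ y) ∧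
        ((φ y : Matrix (Fin n) (Fin n) F) - 1).rank ≤ N * Nat.card H := by
  classical
  set k := Nat.card H with hk
  let ε : H ≃ Fin k := Finite.equivFin H
  obtain ⟨l, hl⟩ : ∃ l, n = N * k + l := ⟨n - N * k, by omega⟩
  let E : Fin n ≃ (Fin N × Fin k) ⊕ Fin l :=
    (finCongr hl).trans (finSumFinEquiv.symm.trans (Equiv.sumCongr finProdFinEquiv.symm
      (Equiv.refl (Fin l))))
  have hpow : ∀ y : H, (rg ε y) ^ N = 1 := by
    intro y
    obtain ⟨m, hm⟩ := hN
    have hyk : y ^ k = 1 := by
      have := pow_card_eq_one' (x := y)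
      exact this
    rw [← map_pow, hm, pow_mul, hyk, one_pow, map_one]
  have hsign : ∀ y : H, Equiv.Perm.sign (rg ε y) ^ N = 1 := by
    intro y
    rw [← map_pow, hpow, map_one]
  have hmv : ∀ (y : H) (w : Fin n → F) (i : Fin n),
      ((ph F E (rg ε) hsign y : Matrix.SpecialLinearGroup (Fin n) F) :
        Matrix (Fin n) (Fin n) F).mulVec w i = w ((PP E (rg ε y))⁻¹ i) := by
    intro y w i
    show (((PP E (rg ε y))⁻¹).permMatrix F).mulVec w i = _
    rw [Matrix.permMatrix_mulVec]
    rfl
  have hinl : ∀ (y : H) (i : Fin N) (j : Fin k), (PP E (rg ε y))⁻¹ (E.symm (Sum.inl (i, j))) =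
      E.symm (Sum.inl (i, (rg ε y)⁻¹ j)) := by
    intro y i j
    rw [← map_inv, PP_inl]
  have hinr : ∀ (y : H) (j : Fin l), (PP E (rg ε y))⁻¹ (E.symm (Sum.inr j)) =
      E.symm (Sum.inr j) := by
    intro y j
    rw [← map_inv, PP_inr]
  refine ⟨ph F E (rg ε) hsign, ?_, fun y => ⟨?_, ?_⟩⟩
  · intro a b hab
    apply rg_inj ε
    have h2 : (rg ε a)⁻¹ = (rg ε b)⁻¹ := by
      ext i
      have h3 := hmv a (Pi.single (E.symm (Sum.inl (⟨0, hN0⟩, (rg ε a)⁻¹ i))) 1)
        (E.symm (Sum.inl (⟨0, hN0⟩, i)))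
      rw [hab, hmv, hinl, hinl, Pi.single_eq_same] at h3
      by_contra hne
      rw [Pi.single_eq_of_ne] at h3
      · exact zero_ne_one h3
      · intro h4
        apply hne
        have h5 := E.symm.injective h4
        have h6 := Sum.inl_injective h5
        have h7 := congrArg Prod.snd h6
        simp only at h7
        rw [h7]
    exact inv_injective h2
  · refine ⟨k, l, ec F E, gL F k (rg ε y), ?_, ?_⟩
    · rw [← map_pow, hpow, map_one]
    · intro w
      refine Prod.ext ?_ ?_
      · funext i j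
        show ((ph F E (rg ε) hsign y : Matrix.SpecialLinearGroup (Fin n) F) :
          Matrix (Fin n) (Fin n) F).mulVec w (E.symm (Sum.inl (i, j))) =
          w (E.symm (Sum.inl (i, (rg ε y)⁻¹ j)))
        rw [hmv, hinl]
      · funext j
        show ((ph F E (rg ε) hsign y : Matrix.SpecialLinearGroup (Fin n) F) :
          Matrix (Fin n) (Fin n) F).mulVec w (E.symm (Sum.inr j)) = w (E.symm (Sum.inr j))
        rw [hmv, hinr]
  · set M : Matrix (Fin n) (Fin n) F :=
      ((ph F E (rg ε) hsign y : Matrix.SpecialLinearGroup (Fin n) F) :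
        Matrix (Fin n) (Fin n) F) - 1 with hM
    have hz : ∀ (j : Fin l) (c : Fin n), M (E.symm (Sum.inr j)) c = 0 := by
      intro j c
      have h1 : M.mulVec (Pi.single c 1) (E.symm (Sum.inr j)) = 0 := by
        rw [hM, Matrix.sub_mulVec, Matrix.one_mulVec, Pi.sub_apply, hmv, hinr, sub_self]
      rw [Matrix.mulVec_single_one] at h1
      exact h1
    let A : Matrix (Fin n) (Fin N × Fin k) F := fun i c => if i = E.symm (Sum.inl c) then 1 else 0
    let B : Matrix (Fin N × Fin k) (Fin n) F := fun c i => M (E.symm (Sum.inl c)) i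
    have hAB : M = A * B := by
      ext i c
      rw [Matrix.mul_apply]
      obtain ⟨x, rfl⟩ := E.symm.surjective i
      rcases x with x | j
      · rw [Finset.sum_eq_single x]
        · show M (E.symm (Sum.inl x)) c =
            (if E.symm (Sum.inl x) = E.symm (Sum.inl x) then 1 else 0) * M (E.symm (Sum.inl x)) c
          rw [if_pos rfl, one_mul]
        · intro x' _ hne
          show (if E.symm (Sum.inl x) = E.symm (Sum.inl x') then (1 : F) else 0) * _ = 0
          rw [if_neg, zero_mul]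
          intro h
          exact hne (Sum.inl_injective (E.symm.injective h)).symm
        · intro h
          exact absurd (Finset.mem_univ _) h
      · rw [hz]
        symm
        apply Finset.sum_eq_zero
        intro x' _
        show (if E.symm (Sum.inr j) = E.symm (Sum.inl x') then (1 : F) else 0) * _ = 0
        rw [if_neg, zero_mul]
        intro h
        exact Sum.inr_ne_inl (E.symm.injective h)
    rw [hAB]
    refine (Matrix.rank_mul_le_left A B).trans ((Matrix.rank_le_card_width A).trans ?_)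
    rw [Fintype.card_prod, Fintype.card_fin, Fintype.card_fin]

end Pool.Agent.H82.BF
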